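import Pool.Agent.X99.PAC.C
import Pool.Agent.X99.PAC.F

/-!
# A field over which all (O-acyclic) varieties have points, with large absolute Galois group

There is a (countable) field `K` of characteristic zero such that every geometrically integral
`K`-scheme which is locally of finite type has a `K`-rational point - in particular every smooth
projective geometrically integral `O`-acyclic variety over `K` has one, so that `K` has property
(A) - and such that no finite set of elements generates the absolute Galois group of `K`
topologically; in particular it is not procyclic.

The field is the union of a chain of countable subfields of the complex numbers.  Every step adjoins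
a generic point of a geometrically integral variety over the field reached so far, and the numbers
`√(p q)` (`p`, `q` distinct primes) stay outside.
-/

set_option autoImplicit false

open CategoryTheory AlgebraicGeometry

namespace Pool.Agent.Results.MP_023059_nt.NotProcyclic

/-- every geometrically integral `K`-scheme `f : X ⟶ Spec K`, locally of finite type over `K`, has a
`K`-rational point, that is a section of `f` -/
def HasPoints (K : Type) [Field K] : Prop :=
  ∀ (X : Scheme.{0}) (f : X ⟶ Spec (CommRingCat.of K)), GeometricallyIntegral f →
    LocallyOfFiniteType f → ∃ s : Spec (CommRingCat.of K) ⟶ X, s ≫ f = 𝟙 _

/-- the group `Gal(L / K)` with its Krull topology is topologically finitely generated: for some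
finite set `T` of its elements the closure of the subgroup generated by `T` is the whole group -/
def TopFinGen (K L : Type) [Field K] [Field L] [Algebra K L] : Prop :=
  ∃ T : Set Gal(L / K), T.Finite ∧ (Subgroup.closure T).topologicalClosure = ⊤

/-- There is a field `K` of characteristic zero such that every geometrically integral `K`-scheme
which is locally of finite type has a `K`-rational point, and such that the absolute Galois group
`Gal(K^s / K)` (with its Krull topology) is not topologically generated by any finite set, in
particular not by one element. -/
theorem result : ∃ (K : Type) (_ : Field K) (_ : CharZero K), HasPoints K ∧
    ¬ TopFinGen K (SeparableClosure K) := by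
  obtain ⟨K, hK⟩ := Pool.Agent.X99.PAC.exists_field
  refine ⟨K.1, inferInstance, inferInstance,
    fun X f h1 h2 => Pool.Agent.X99.PAC.point hK X f h1 h2, fun h => ?_⟩
  obtain ⟨T, hT, h⟩ := h
  have := Pool.Agent.X99.PAC.not_fg K.2 hT.toFinset
  rw [Set.Finite.coe_toFinset] at this
  exact this h

end Pool.Agent.Results.MP_023059_nt.NotProcyclic
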